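import Pool.Agent.helper84.NR.Spec

set_option autoImplicit false

namespace Pool.Agent.helper84.NR

open scoped Classical
open Finset

theorem PMI (hIDX : IDX_stmt) (hEDG : EDG_stmt) : PMI_stmt := by
  intro V F M x y f k0 k hne hnn hy hk1 hkl hadj hfree
  obtain ⟨I1, -, -, I4, -⟩ := hIDX V F M.toCyc f k0
  obtain ⟨-, E2⟩ := hEDG V F M
  have hfy : OnV M.toCyc f y := ⟨k0, hy⟩
  have hfx : ¬ OnV M.toCyc f x := fun h => hne f ⟨h, hfy⟩
  let q : ℕ → V := fun i => if i = 0 then x else M.bd f (k0 + (k + 1 - i))
  have q0 : q 0 = x := by simp [q]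
  have qs : ∀ i, 1 ≤ i → q i = M.bd f (k0 + (k + 1 - i)) := by
    intro i hi
    have : i ≠ 0 := by omega
    simp [q, this]
  have qy : q (k + 1) = y := by
    rw [qs (k + 1) (by omega)]
    simp [hy]
  have q1 : q 1 = M.bd f (k0 + k) := by
    rw [qs 1 (by omega)]
    simp
  have hinj : ∀ i j, i ≤ k + 1 → j ≤ k + 1 → q i = q j → i = j := by
    intro i j hi hj hij
    rcases Nat.eq_zero_or_pos i with hi0 | hi0
    · rcases Nat.eq_zero_or_pos j with hj0 | hj0
      · omega
      · exfalso
        subst hi0
        rw [q0, qs j hj0] at hij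
        exact hfx ⟨_, hij.symm⟩
    · rcases Nat.eq_zero_or_pos j with hj0 | hj0
      · exfalso
        subst hj0
        rw [q0, qs i hi0] at hij
        exact hfx ⟨_, hij⟩
      · rw [qs i hi0, qs j hj0] at hij
        have := I1 (k + 1 - i) (k + 1 - j) (by omega) (by omega) hij
        omega
  have hstep : ∀ l, 1 ≤ l → l < k + 1 → OnE M.toCyc f s(q l, q (l + 1)) := by
    intro l hl1 hl2
    refine ⟨k0 + (k - l), ?_⟩
    rw [qs l hl1, qs (l + 1) (by omega)]
    have e1 : k0 + (k + 1 - l) = k0 + (k - l) + 1 := by omega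
    have e2 : k0 + (k + 1 - (l + 1)) = k0 + (k - l) := by omega
    rw [e1, e2, Sym2.eq_swap]
  have main : ∀ g i j, 1 ≤ i → j ≤ k + 1 → OnV M.toCyc g (q i) → OnV M.toCyc g (q j) →
      ∀ l, i ≤ l → l < j → OnE M.toCyc g s(q l, q (l + 1)) := by
    intro g i j hi hj hgi hgj l hl1 hl2
    rcases eq_or_ne g f with hgf | hgf
    · subst hgf
      exact hstep l (by omega) (by omega)
    · have hij : q i ≠ q j := fun h => by
        have := hinj i j (by omega) hj h
        omega
      have hfi : OnV M.toCyc f (q i) := by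
        rw [qs i hi]
        exact ⟨_, rfl⟩
      have hfj : OnV M.toCyc f (q j) := by
        rw [qs j (by omega)]
        exact ⟨_, rfl⟩
      obtain ⟨ef, eg, -⟩ := M.poly f g hgf.symm (q i) (q j) hij hfi hfj hgi hgj
      have ef' : OnE M.toCyc f s(M.bd f (k0 + (k + 1 - j)), M.bd f (k0 + (k + 1 - i))) := by
        rw [← qs i hi, ← qs j (by omega), Sym2.eq_swap]
        exact ef
      rcases I4 (k + 1 - j) (k + 1 - i) (by omega) (by omega) ef' with h | ⟨h1, h2⟩
      · have hj' : j = i + 1 := by omega
        have hl : l = i := by omega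
        subst hj'
        subst hl
        exact eg
      · exfalso
        have hj' : j = k + 1 := by omega
        have hi' : i = 1 := by omega
        subst hj'
        subst hi'
        rw [q1, qy] at ef
        exact hnn _ hadj ⟨f, ef⟩
  refine ⟨k + 1, q, q0, qy, hinj, ?_, ?_⟩
  · intro i hi
    rcases Nat.eq_zero_or_pos i with hi0 | hi0
    · subst hi0
      rw [q0, show (0 : ℕ) + 1 = 1 from rfl, q1]
      exact hadj
    · exact ⟨f, hstep i hi0 hi⟩
  · intro g i j hij hj hgi hgj l hl1 hl2
    rcases Nat.eq_zero_or_pos i with hi0 | hi0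
    · subst hi0
      have hgx : OnV M.toCyc g x := by rw [q0] at hgi; exact hgi
      have hg1 : OnV M.toCyc g (q 1) := by
        rcases Nat.lt_or_ge 1 j with h | h
        · rcases Nat.lt_or_ge j (k + 1) with h' | h'
          · rw [q1]
            refine hfree (k + 1 - j) (by omega) (by omega) g hgx ?_
            rw [qs j (by omega)] at hgj
            exact hgj
          · exfalso
            have hj' : j = k + 1 := by omega
            subst hj'
            rw [qy] at hgj
            exact hne g ⟨hgx, hgj⟩
        · have hj' : j = 1 := by omega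
          subst hj'
          exact hgj
      rcases Nat.eq_zero_or_pos l with hl0 | hl0
      · subst hl0
        rw [q0, show (0 : ℕ) + 1 = 1 from rfl]
        refine E2 g x (q 1) ?_ hgx hg1
        rw [q1]
        exact hadj
      · exact main g 1 j le_rfl hj hg1 hgj l hl0 hl2
    · exact main g i j hi0 hj hgi hgj l hl1 hl2

end Pool.Agent.helper84.NR
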